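import Pool.Agent.Run7.h775.Doyle.Main

/-!
# Doyle's question on locally univalent hexagonal circle packings

Every locally univalent circle packing for the hexagonal complex `H` in the plane has a label of
the form `R (v_{n,m}) = c * a ^ n * b ^ m`; so it is a regular hexagonal packing or a Doyle spiral.

Proof.  For two packing labels `R`, `S` on `H` the function `log S - log R` is harmonic for
symmetric conductances in `(0, 1]` on the edges of `H` (integrate the variation formula of the
angles along the segment from `log R` to `log S`).  This network is recurrent, so bounded harmonic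
functions are constant.  By the ring lemma this applies to `S (v) = R (v + e)`.
-/

namespace Pool.Agent.Results.MP_5725d1_gt.DoyleRigidity

open Run7.h775.Doyle

theorem result : ∀ R : ℤ × ℤ → ℝ, IsPackingLabel R →
    (∃ z : ℤ × ℤ → ℂ, IsCirclePacking R z ∧ LocallyUnivalent R z) →
    ∃ a b c : ℝ, 0 < a ∧ 0 < b ∧ 0 < c ∧ ∀ n m : ℤ, R (n, m) = c * a ^ n * b ^ m :=
  fun R hR hz => doyle R hR hz

end Pool.Agent.Results.MP_5725d1_gt.DoyleRigidity
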